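import Pool.Agent.Helper85.PCP.Stmts

/-!
# Module DOK: the V-tag system of a two-number machine is admissible
-/

namespace PCP4

theorem dok_blk_length (k ty q : ℕ) : (blk k ty q).length = (k + 1) * k := by
  have h : ∀ n : ℕ, ((List.range n).flatMap
      (fun i => List.replicate k 0 ++ [sT k ty q (k - 1 - i)])).length = (k + 1) * n := by
    intro n
    induction n with
    | zero => simp
    | succ n ih =>
      rw [List.range_succ, List.flatMap_append, List.length_append, ih]
      simp
      ring
  exact h k

theorem dok_cps_length (n : ℕ) (w : List ℕ) : (cps n w).length = n * w.length := by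
  unfold cps
  induction n with
  | zero => simp
  | succ n ih =>
    rw [List.range_succ, List.flatMap_append, List.length_append, ih]
    simp
    ring

theorem dok_mem_blk {k ty q x : ℕ} (hk : 0 < k) (h : x ∈ blk k ty q) :
    x = 0 ∨ ∃ r < k, x = sT k ty q r := by
  unfold blk at h
  rw [List.mem_flatMap] at h
  obtain ⟨i, -, hx⟩ := h
  rw [List.mem_append] at hx
  rcases hx with hx | hx
  · left
    exact List.eq_of_mem_replicate hx
  · right
    refine ⟨k - 1 - i, by omega, ?_⟩
    simpa using hx

theorem dok_mem_cps {n x : ℕ} {w : List ℕ} (h : x ∈ cps n w) : x ∈ w := by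
  unfold cps at h
  rw [List.mem_flatMap] at h
  obtain ⟨i, -, hx⟩ := h
  exact hx

/-- a bound for the symbols -/
theorem dok_lt {k Q0 n q : ℕ} (hq : q ≤ Q0 + 2 * n) :
    (2 + 4 * k) * q + (2 + 4 * k) < nA k Q0 n := by
  unfold nA
  have h : (2 + 4 * k) * (q + 1) ≤ (2 + 4 * k) * (Q0 + 2 * n + 1) :=
    Nat.mul_le_mul_left _ (by omega)
  have h2 : (2 + 4 * k) * (q + 1) = (2 + 4 * k) * q + (2 + 4 * k) := by ring
  omega

theorem dok_sT {k ty r : ℕ} (hty : ty < 4) (hr : r < k) (q : ℕ) :
    sT k ty q r ≤ (2 + 4 * k) * q + (2 + 4 * k) := by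
  unfold sT
  have h : ty * k ≤ 3 * k := Nat.mul_le_mul_right _ (by omega)
  omega

theorem dok_blk_lt {k ty q Q0 n : ℕ} (hk : 0 < k) (hty : ty < 4) (hq : q ≤ Q0 + 2 * n) :
    ∀ x ∈ blk k ty q, x < nA k Q0 n := by
  intro x hx
  have h0 := dok_lt (k := k) hq
  rcases dok_mem_blk hk hx with h | ⟨r, hr, h⟩
  · omega
  · have := dok_sT hty hr q
    omega

theorem dok_dlt {k Q0 q0 qh : ℕ} {tab : List (ℕ × Bool × Bool × ℕ)} (H : AOk k Q0 q0 qh tab)
    {n q r : ℕ} (hq : q ≤ Q0 + 2 * n) (hr : r < k) :
    (dlt k Q0 q0 tab q r).1 ≤ Q0 + 2 * n ∧ (dlt k Q0 q0 tab q r).2.2.2 < k := by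
  by_cases h : q < Q0
  · have := H.hd q h r hr
    exact ⟨by omega, this.2⟩
  · have hk := H.hk
    have hq0 := H.hq0
    unfold dlt
    rw [if_neg h]
    refine ⟨?_, ?_⟩
    · show (if q = Q0 then q0 else q - 1) ≤ Q0 + 2 * n
      split_ifs <;> omega
    · show (q - Q0) % 2 < k
      have := Nat.mod_lt (q - Q0) (show 0 < 2 by norm_num)
      omega

/-- the length inequality used everywhere -/
theorem dok_len {k t : ℕ} (_hk : 2 ≤ k) (h1 : 1 ≤ t) (h2 : t ≤ (k + 1) * k - 1) :
    k + 1 ≤ (k + 1) * t ∧ (k + 1) * t ≤ (k + 1) * ((k + 1) * k - 1) := by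
  have := Nat.mul_le_mul_left (k + 1) h1
  have := Nat.mul_le_mul_left (k + 1) h2
  omega

theorem st_DOK (hDPR : ST_DPR) : ST_DOK := by
  intro k Q0 q0 qh tab H n
  have hk := H.hk
  have hkQ := H.hkQ
  have hV : (k + 1) * k = k * k + k := by ring
  have hkk : 2 * k ≤ k * k := Nat.mul_le_mul_right _ hk
  have h0 := dok_lt (k := k) (Q0 := Q0) (n := n) (q := Q0 + 2 * n) le_rfl
  have hkb : k * k ≤ (2 + 4 * k) * (Q0 + 2 * n) :=
    Nat.mul_le_mul (by omega) (by omega)
  have hApos : 0 < nA k Q0 n := by omega
  refine ⟨by omega, by omega, by omega, by omega, ?_, ?_, hApos, ?_⟩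
  · -- productions
    intro τ hτ p hp
    rcases Nat.eq_zero_or_pos τ with rfl | hpos
    · rw [(hDPR k Q0 q0 qh tab hk 0).1] at hp
      cases hp
      have := dok_len hk (t := k) (by omega) (by omega)
      refine ⟨by simpa using this.1, by simpa using this.2, ?_⟩
      intro x hx
      rw [List.eq_of_mem_replicate hx]
      exact hApos
    · -- the block of `τ`
      obtain ⟨q, hq1, hq2⟩ : ∃ q, 1 + (2 + 4 * k) * q ≤ τ ∧ τ < 1 + (2 + 4 * k) * (q + 1) := by
        refine ⟨(τ - 1) / (2 + 4 * k), ?_, ?_⟩
        · have := Nat.div_mul_le_self (τ - 1) (2 + 4 * k)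
          rw [mul_comm] at this
          omega
        · have := Nat.lt_mul_div_succ (τ - 1) (show 0 < 2 + 4 * k by omega)
          omega
      have hq : q ≤ Q0 + 2 * n := by
        by_contra hcon
        have h1 : Q0 + 2 * n + 1 ≤ q := by omega
        have h2 := Nat.mul_le_mul_left (2 + 4 * k) h1
        unfold nA at hτ
        omega
      obtain ⟨-, hsh, hsb, hr4, hcl⟩ := hDPR k Q0 q0 qh tab hk q
      rcases hcl τ hq2 hq1 with rfl | rfl | ⟨ty, hty, r, hr, rfl⟩
      · rw [hsh] at hp
        split_ifs at hp with hqq
        cases hp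
        have := dok_len hk (t := k) (by omega) (by omega)
        refine ⟨by rw [dok_blk_length]; exact this.1, by rw [dok_blk_length]; exact this.2, ?_⟩
        exact dok_blk_lt (by omega) (by omega) hq
      · rw [hsb] at hp
        cases hp
        have := dok_len hk (t := k) (by omega) (by omega)
        refine ⟨by rw [dok_blk_length]; exact this.1, by rw [dok_blk_length]; exact this.2, ?_⟩
        exact dok_blk_lt (by omega) (by omega) hq
      · obtain ⟨hd1, hd2⟩ := dok_dlt H hq hr
        obtain ⟨hS, hA, hH, hB⟩ := hr4 r hr
        have hb := dok_lt (k := k) hd1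
        have hshl : sh k (dlt k Q0 q0 tab q r).1 < nA k Q0 n := by
          unfold sh
          omega
        have hsbl : sb k (dlt k Q0 q0 tab q r).1 < nA k Q0 n := by
          unfold sb
          omega
        interval_cases ty
        · rw [hS] at hp
          cases hp
          have hlen : (List.replicate ((k + 1) * (k - r) - 1) 0 ++
              sh k (dlt k Q0 q0 tab q r).1 ::
                List.replicate ((k + 1) * (dlt k Q0 q0 tab q r).2.2.2)
                  (sb k (dlt k Q0 q0 tab q r).1)).length =
              (k + 1) * ((k - r) + (dlt k Q0 q0 tab q r).2.2.2) := by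
            have : (k + 1) * 1 ≤ (k + 1) * (k - r) := Nat.mul_le_mul_left _ (by omega)
            simp only [List.length_append, List.length_replicate, List.length_cons]
            rw [mul_add]
            omega
          rw [hlen]
          have := dok_len hk (t := (k - r) + (dlt k Q0 q0 tab q r).2.2.2) (by omega) (by omega)
          refine ⟨this.1, this.2, ?_⟩
          intro x hx
          rw [List.mem_append, List.mem_cons] at hx
          rcases hx with hx | hx | hx
          · rw [List.eq_of_mem_replicate hx]
            exact hApos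
          · rw [hx]
            exact hshl
          · rw [List.eq_of_mem_replicate hx]
            exact hsbl
        · rw [hA] at hp
          cases hp
          have ht : 1 ≤ (if (dlt k Q0 q0 tab q r).2.2.1 = true then k else 1) ∧
              (if (dlt k Q0 q0 tab q r).2.2.1 = true then k else 1) ≤ k := by
            split_ifs <;> omega
          have := dok_len hk (t := (if (dlt k Q0 q0 tab q r).2.2.1 = true then k else 1))
            ht.1 (by omega)
          refine ⟨by simpa using this.1, by simpa using this.2, ?_⟩
          intro x hx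
          rw [List.eq_of_mem_replicate hx]
          exact hsbl
        · rw [hH] at hp
          cases hp
          have ht : (if (dlt k Q0 q0 tab q r).2.1 = true then r else 0) ≤ r := by
            split_ifs <;> omega
          have hlen : (blk k 0 (dlt k Q0 q0 tab q r).1 ++
              cps (if (dlt k Q0 q0 tab q r).2.1 then r else 0)
                (blk k 1 (dlt k Q0 q0 tab q r).1)).length =
              (k + 1) * (k * (1 + (if (dlt k Q0 q0 tab q r).2.1 = true then r else 0))) := by
            rw [List.length_append, dok_cps_length, dok_blk_length, dok_blk_length]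
            ring
          rw [hlen]
          have hup : k * (1 + (if (dlt k Q0 q0 tab q r).2.1 = true then r else 0)) ≤ k * k :=
            Nat.mul_le_mul_left _ (by omega)
          have hlo : k * 1 ≤ k * (1 + (if (dlt k Q0 q0 tab q r).2.1 = true then r else 0)) :=
            Nat.mul_le_mul_left _ (by omega)
          have := dok_len hk
            (t := k * (1 + (if (dlt k Q0 q0 tab q r).2.1 = true then r else 0)))
            (by omega) (by omega)
          refine ⟨this.1, this.2, ?_⟩
          intro x hx
          rw [List.mem_append] at hx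
          rcases hx with hx | hx
          · exact dok_blk_lt (by omega) (by omega) hd1 x hx
          · exact dok_blk_lt (by omega) (by omega) hd1 x (dok_mem_cps hx)
        · rw [hB] at hp
          cases hp
          have ht : 1 ≤ (if (dlt k Q0 q0 tab q r).2.1 = true then k else 1) ∧
              (if (dlt k Q0 q0 tab q r).2.1 = true then k else 1) ≤ k := by
            split_ifs <;> omega
          have hlen : (cps (if (dlt k Q0 q0 tab q r).2.1 then k else 1)
                (blk k 1 (dlt k Q0 q0 tab q r).1)).length =
              (k + 1) * (k * (if (dlt k Q0 q0 tab q r).2.1 = true then k else 1)) := by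
            rw [dok_cps_length, dok_blk_length]
            ring
          rw [hlen]
          have hup : k * (if (dlt k Q0 q0 tab q r).2.1 = true then k else 1) ≤ k * k :=
            Nat.mul_le_mul_left _ ht.2
          have hlo : k * 1 ≤ k * (if (dlt k Q0 q0 tab q r).2.1 = true then k else 1) :=
            Nat.mul_le_mul_left _ ht.1
          have := dok_len hk
            (t := k * (if (dlt k Q0 q0 tab q r).2.1 = true then k else 1))
            (by omega) (by omega)
          refine ⟨this.1, this.2, ?_⟩
          intro x hx
          exact dok_blk_lt (by omega) (by omega) hd1 x (dok_mem_cps hx)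
  · -- the initial dataword
    have hcl : (conf k (Q0 + 2 * n, 0, 0)).length = 1 + (k + 1) * k := by
      unfold conf
      simp only [List.length_cons, List.length_append, List.length_replicate, dok_blk_length,
        dok_cps_length]
      ring
    have hlen : (D1 k Q0 n).length = (k + 1) * k - 1 := by
      unfold D1
      rw [List.length_take, hcl]
      omega
    rw [hlen]
    refine ⟨by omega, ?_, ?_⟩
    · have : 1 * ((k + 1) * k - 1) ≤ (k + 1 - 2) * ((k + 1) * k - 1) :=
        Nat.mul_le_mul_right _ (by omega)
      omega
    · intro x hx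
      have hx' : x ∈ conf k (Q0 + 2 * n, 0, 0) := List.mem_of_mem_take hx
      unfold conf at hx'
      rw [List.mem_cons, List.mem_append, List.mem_append] at hx'
      rcases hx' with hx' | hx' | hx' | hx'
      · rw [hx']
        show sh k (Q0 + 2 * n) < _
        unfold sh
        omega
      · simp at hx'
      · exact dok_blk_lt (by omega) (by omega) le_rfl x hx'
      · exact absurd (show x ∈ cps 0 (blk k 1 (Q0 + 2 * n)) from hx') (by simp [cps])
  · have := dok_sT (k := k) (ty := 0) (r := 0) (by omega) (by omega) (Q0 + 2 * n)
    omega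

end PCP4
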